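import Pool.Agent.Q219.SAW.Site

/-!
Two independent self-avoiding walks with `n` and `m` steps, conditioned not to intersect, on the
square and the triangular lattice: when the first walk gets `s` more steps, the joint conditional
law of its end point, its first `k` steps and the whole second walk changes by at most
`O(log (n + m) / √(n - k))`.
-/

set_option autoImplicit false

namespace Pool.Agent.Results.MP_8c6f77_pr.ConditionedPairs

open Q219.SAW.Std

/-- the pairs of self-avoiding walks with `n` and `m` steps from the origin such that the traces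
`w{1, …, n}` and `w'{0, …, m}` are disjoint -/
def pairs (N : Set (ℤ × ℤ)) (n m : ℕ) : Set ((Fin (n + 1) → ℤ × ℤ) × (Fin (m + 1) → ℤ × ℤ)) :=
  {p | IsSAW N n p.1 ∧ IsSAW N m p.2 ∧ ∀ i j, p.1 i = p.2 j → i = 0}

/-- the end point of the first walk, its first `k + 1` sites, and the second walk -/
def part (k : ℕ) {n m : ℕ} (p : (Fin (n + 1) → ℤ × ℤ) × (Fin (m + 1) → ℤ × ℤ)) :
    (ℤ × ℤ) × (Fin (k + 1) → ℤ × ℤ) × (Fin (m + 1) → ℤ × ℤ) :=
  (p.1 (Fin.last n), fun i => p.1 (Fin.ofNat (n + 1) i), p.2)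

/-- the pairs for which the event `H` occurs -/
def event (N : Set (ℤ × ℤ)) (n m k : ℕ)
    (H : Set ((ℤ × ℤ) × (Fin (k + 1) → ℤ × ℤ) × (Fin (m + 1) → ℤ × ℤ))) :
    Set ((Fin (n + 1) → ℤ × ℤ) × (Fin (m + 1) → ℤ × ℤ)) :=
  {p | p ∈ pairs N n m ∧ part k p ∈ H}

/-- the conditional probability of `H` given that the walks do not intersect -/
noncomputable def probH (N : Set (ℤ × ℤ)) (n m k : ℕ)
    (H : Set ((ℤ × ℤ) × (Fin (k + 1) → ℤ × ℤ) × (Fin (m + 1) → ℤ × ℤ))) : ℝ :=
  ((event N n m k H).ncard : ℝ) / ((pairs N n m).ncard : ℝ)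

/-- the conditional mean of `G` given that the walks do not intersect and given `H` -/
noncomputable def meanH (N : Set (ℤ × ℤ)) (n m k : ℕ)
    (H : Set ((ℤ × ℤ) × (Fin (k + 1) → ℤ × ℤ) × (Fin (m + 1) → ℤ × ℤ)))
    (G : (ℤ × ℤ) × (Fin (k + 1) → ℤ × ℤ) × (Fin (m + 1) → ℤ × ℤ) → ℝ) : ℝ :=
  (∑ᶠ p ∈ event N n m k H, G (part k p)) / ((event N n m k H).ncard : ℝ)

/-- from a walk with `n + m` steps to a pair -/
def J (n m : ℕ) (ω : Fin (n + m + 1) → ℤ × ℤ) :
    (Fin (n + 1) → ℤ × ℤ) × (Fin (m + 1) → ℤ × ℤ) :=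
  (fun i => (fun t : ℕ => site ω (n - t) - site ω n) i,
    fun j => (fun t : ℕ => site ω (n + t) - site ω n) j)

theorem J_one {n m : ℕ} (ω : Fin (n + m + 1) → ℤ × ℤ) {t : ℕ} (ht : t ≤ n) :
    site (J n m ω).1 t = site ω (n - t) - site ω n :=
  site_mk (fun t : ℕ => site ω (n - t) - site ω n) ht

theorem J_two {n m : ℕ} (ω : Fin (n + m + 1) → ℤ × ℤ) {t : ℕ} (ht : t ≤ m) :
    site (J n m ω).2 t = site ω (n + t) - site ω n :=
  site_mk (fun t : ℕ => site ω (n + t) - site ω n) ht

theorem pairs_iff {N : Set (ℤ × ℤ)} {n m : ℕ}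
    {p : (Fin (n + 1) → ℤ × ℤ) × (Fin (m + 1) → ℤ × ℤ)} : p ∈ pairs N n m ↔
    IsSAW N n p.1 ∧ IsSAW N m p.2 ∧
      ∀ i j, i ≤ n → j ≤ m → site p.1 i = site p.2 j → i = 0 := by
  unfold pairs
  rw [Set.mem_ofPred_eq]
  refine and_congr Iff.rfl (and_congr Iff.rfl ?_)
  constructor
  · intro h i j hi hj hij
    have h4 := site_val p.1 ⟨i, by omega⟩
    have h5 := site_val p.2 ⟨j, by omega⟩
    simp only at h4 h5
    rw [h4, h5] at hij
    have := congrArg Fin.val (h _ _ hij)
    simpa using this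
  · intro h i j hij
    rw [← site_val p.1 i, ← site_val p.2 j] at hij
    apply Fin.ext
    rw [h i j (by have := i.2; omega) (by have := j.2; omega) hij]
    simp

theorem J_mem {N : Set (ℤ × ℤ)} {s : ℕ} (hL : IsLat N s) {n m : ℕ}
    {ω : Fin (n + m + 1) → ℤ × ℤ} (hω : IsSAW N (n + m) ω) : J n m ω ∈ pairs N n m := by
  rw [saw_iff] at hω
  obtain ⟨h1, h2, h3⟩ := hω
  rw [pairs_iff]
  refine ⟨saw_iff.2 ⟨?_, ?_, ?_⟩, saw_iff.2 ⟨?_, ?_, ?_⟩, ?_⟩
  · rw [J_one ω (Nat.zero_le _), Nat.sub_zero, sub_self]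
  · intro i hi
    rw [J_one ω (by omega), J_one ω (by omega), sub_sub_sub_cancel_right]
    have h4 := lat_symm hL (h2 (n - (i + 1)) (by omega))
    rw [neg_sub, show n - (i + 1) + 1 = n - i by omega] at h4
    exact h4
  · intro i j hi hj hij
    rw [J_one ω hi, J_one ω hj] at hij
    have := h3 _ _ (by omega) (by omega) (sub_left_injective hij)
    omega
  · rw [J_two ω (Nat.zero_le _), Nat.add_zero, sub_self]
  · intro i hi
    rw [J_two ω (by omega), J_two ω (by omega), sub_sub_sub_cancel_right]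
    exact h2 (n + i) (by omega)
  · intro i j hi hj hij
    rw [J_two ω hi, J_two ω hj] at hij
    have := h3 _ _ (by omega) (by omega) (sub_left_injective hij)
    omega
  · intro i j hi hj hij
    rw [J_one ω hi, J_two ω hj] at hij
    have := h3 _ _ (by omega) (by omega) (sub_left_injective hij)
    omega

theorem J_inj {N : Set (ℤ × ℤ)} {n m : ℕ} : Set.InjOn (J n m) {ω | IsSAW N (n + m) ω} := by
  intro ω hω ω' hω' h
  have h0 : site ω 0 = 0 := (saw_iff.1 hω).1
  have h0' : site ω' 0 = 0 := (saw_iff.1 hω').1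
  have hn : site ω n = site ω' n := by
    have h1 := J_one ω (le_refl n)
    have h2 := J_one ω' (le_refl n)
    rw [h, h2, Nat.sub_self, h0, h0', zero_sub, zero_sub, neg_inj] at h1
    exact h1.symm
  refine ext_site fun t ht => ?_
  rcases le_or_gt t n with h1 | h1
  · have h2 := J_one ω (show n - t ≤ n by omega)
    have h3 := J_one ω' (show n - t ≤ n by omega)
    rw [h, h3, show n - (n - t) = t by omega, hn] at h2
    exact (sub_left_injective h2).symm
  · have h2 := J_two ω (show t - n ≤ m by omega)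
    have h3 := J_two ω' (show t - n ≤ m by omega)
    rw [h, h3, show n + (t - n) = t by omega, hn] at h2
    exact (sub_left_injective h2).symm

theorem J_surj {N : Set (ℤ × ℤ)} {s : ℕ} (hL : IsLat N s) {n m : ℕ}
    {p : (Fin (n + 1) → ℤ × ℤ) × (Fin (m + 1) → ℤ × ℤ)} (hp : p ∈ pairs N n m) :
    ∃ ω, IsSAW N (n + m) ω ∧ J n m ω = p := by
  rw [pairs_iff] at hp
  obtain ⟨hp1, hp2, hp3⟩ := hp
  obtain ⟨a1, a2, a3⟩ := saw_iff.1 hp1
  obtain ⟨b1, b2, b3⟩ := saw_iff.1 hp2
  obtain ⟨f, hf⟩ : ∃ f : ℕ → ℤ × ℤ, f = fun t => if t ≤ n then site p.1 (n - t) - site p.1 n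
    else site p.2 (t - n) - site p.1 n := ⟨_, rfl⟩
  obtain ⟨ω, hω⟩ : ∃ ω : Fin (n + m + 1) → ℤ × ℤ, ω = fun i : Fin (n + m + 1) => f i := ⟨_, rfl⟩
  have hs : ∀ t, t ≤ n + m → site ω t = f t := fun t ht => by
    rw [hω]
    exact site_mk f ht
  have f1 : ∀ t, t ≤ n → f t = site p.1 (n - t) - site p.1 n := fun t ht => by
    rw [hf]
    exact if_pos ht
  have f2 : ∀ t, t ≤ m → f (n + t) = site p.2 t - site p.1 n := fun t ht => by
    rw [hf]
    rcases Nat.eq_zero_or_pos t with h0 | h0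
    · subst h0
      simp [a1, b1]
    · simp only
      rw [if_neg (by omega), Nat.add_sub_cancel_left]
  refine ⟨ω, saw_iff.2 ⟨?_, ?_, ?_⟩, ?_⟩
  · rw [hs 0 (Nat.zero_le _), f1 0 (Nat.zero_le _), Nat.sub_zero, sub_self]
  · intro i hi
    rw [hs i (by omega), hs (i + 1) (by omega)]
    rcases lt_or_ge i n with h1 | h1
    · rw [f1 i (by omega), f1 (i + 1) (by omega), sub_sub_sub_cancel_right]
      have h4 := lat_symm hL (a2 (n - (i + 1)) (by omega))
      rw [neg_sub, show n - (i + 1) + 1 = n - i by omega] at h4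
      exact h4
    · obtain ⟨t, rfl⟩ : ∃ t, i = n + t := ⟨i - n, by omega⟩
      rw [f2 t (by omega), show n + t + 1 = n + (t + 1) by ring, f2 (t + 1) (by omega),
        sub_sub_sub_cancel_right]
      exact b2 t (by omega)
  · intro i j hi hj hij
    rw [hs i hi, hs j hj] at hij
    rcases le_or_gt i n with h1 | h1
    · rcases le_or_gt j n with h2 | h2
      · rw [f1 i h1, f1 j h2] at hij
        have := a3 _ _ (by omega) (by omega) (sub_left_injective hij)
        omega
      · obtain ⟨t, rfl⟩ : ∃ t, j = n + t := ⟨j - n, by omega⟩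
        rw [f1 i h1, f2 t (by omega)] at hij
        have h3 := hp3 _ _ (show n - i ≤ n by omega) (show t ≤ m by omega)
          (sub_left_injective hij)
        rw [h3, a1, sub_left_inj] at hij
        have h4 := b3 0 t (by omega) (by omega) (by rw [b1]; exact hij)
        omega
    · obtain ⟨u, rfl⟩ : ∃ u, i = n + u := ⟨i - n, by omega⟩
      rcases le_or_gt j n with h2 | h2
      · rw [f1 j h2, f2 u (by omega)] at hij
        have h3 := hp3 _ _ (show n - j ≤ n by omega) (show u ≤ m by omega)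
          (sub_left_injective hij.symm)
        rw [h3, a1, sub_left_inj] at hij
        have h4 := b3 0 u (by omega) (by omega) (by rw [b1]; exact hij.symm)
        omega
      · obtain ⟨t, rfl⟩ : ∃ t, j = n + t := ⟨j - n, by omega⟩
        rw [f2 u (by omega), f2 t (by omega)] at hij
        have := b3 _ _ (by omega) (by omega) (sub_left_injective hij)
        omega
  · have hn : site ω n = - site p.1 n := by
      rw [hs n (by omega), f1 n le_rfl, Nat.sub_self, a1, zero_sub]
    refine Prod.ext (ext_site fun t ht => ?_) (ext_site fun t ht => ?_)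
    · rw [J_one ω ht, hn, hs _ (by omega), f1 _ (by omega), show n - (n - t) = t by omega]
      abel
    · rw [J_two ω ht, hn, hs _ (by omega), f2 _ ht]
      abel

/-- the part of the pair as a function of the outer part of the walk -/
def psi (k m : ℕ) (o : Pairs 0 (k + m)) :
    (ℤ × ℤ) × (Fin (k + 1) → ℤ × ℤ) × (Fin (m + 1) → ℤ × ℤ) :=
  (site o.1 0 - site o.2 k, fun i => site o.2 (k - i) - site o.2 k,
    fun j => site o.2 (k + j) - site o.2 k)

theorem part_J {n m k : ℕ} (hk : k ≤ n) (ω : Fin (n + m + 1) → ℤ × ℤ) :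
    part k (J n m ω) = psi k m (outer 0 (k + m) ω) := by
  have hn : site ω n = site (outer 0 (k + m) ω).2 k :=
    site_two ω (by omega) (by omega)
  unfold part psi
  refine Prod.ext ?_ (Prod.ext ?_ ?_)
  · show (J n m ω).1 (Fin.last n) = _
    rw [← site_last (J n m ω).1, J_one ω le_rfl, Nat.sub_self, hn,
      site_one (a := 0) (m := k + m) ω (le_refl 0)]
  · funext i
    have hi := i.2
    show site (J n m ω).1 i = _
    rw [J_one ω (by omega), hn, site_two (a := 0) (m := k + m) ω (s := n - i) (t := k - i)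
      (by omega) (by omega)]
  · funext j
    have hj := j.2
    show (J n m ω).2 j = _
    rw [← site_val (J n m ω).2 j, J_two ω (by omega), hn,
      site_two (a := 0) (m := k + m) ω (s := n + j) (t := k + j) (by omega) (by omega)]

theorem event_eq {N : Set (ℤ × ℤ)} {s : ℕ} (hL : IsLat N s) {n m k : ℕ} (hk : k ≤ n)
    (H : Set ((ℤ × ℤ) × (Fin (k + 1) → ℤ × ℤ) × (Fin (m + 1) → ℤ × ℤ))) :
    event N n m k H = J n m '' walks N Set.univ (psi k m ⁻¹' H) (n + m) := by
  ext p
  unfold event walks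
  rw [Set.mem_ofPred_eq, Set.mem_image]
  constructor
  · rintro ⟨h1, h2⟩
    obtain ⟨ω, h3, rfl⟩ := J_surj hL h1
    refine ⟨ω, ⟨h3, fun i => Set.mem_univ _, ?_⟩, rfl⟩
    rw [Set.mem_preimage, ← part_J hk]
    exact h2
  · rintro ⟨ω, ⟨h3, -, h4⟩, rfl⟩
    refine ⟨J_mem hL h3, ?_⟩
    rw [part_J hk]
    exact h4

theorem J_injOn {N : Set (ℤ × ℤ)} {n m k : ℕ} (H : Set (Pairs 0 (k + m))) :
    Set.InjOn (J n m) (walks N Set.univ H (n + m)) :=
  (J_inj (N := N)).mono fun _ h => h.1

theorem ncard_event {N : Set (ℤ × ℤ)} {s : ℕ} (hL : IsLat N s) {n m k : ℕ} (hk : k ≤ n)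
    (H : Set ((ℤ × ℤ) × (Fin (k + 1) → ℤ × ℤ) × (Fin (m + 1) → ℤ × ℤ))) :
    (event N n m k H).ncard = (walks N Set.univ (psi k m ⁻¹' H) (n + m)).ncard := by
  rw [event_eq hL hk, Set.InjOn.ncard_image (J_injOn _)]

theorem ncard_pairs {N : Set (ℤ × ℤ)} {s : ℕ} (hL : IsLat N s) (n m : ℕ) :
    ((pairs N n m).ncard : ℝ) = c N (n + m) := by
  have h : pairs N n m = J n m '' {ω | IsSAW N (n + m) ω} := by
    ext p
    rw [Set.mem_image]
    constructor
    · intro h
      obtain ⟨ω, h1, h2⟩ := J_surj hL h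
      exact ⟨ω, h1, h2⟩
    · rintro ⟨ω, h1, rfl⟩
      exact J_mem hL h1
  rw [h, Set.InjOn.ncard_image J_inj]
  rfl

theorem meanH_eq {N : Set (ℤ × ℤ)} {s : ℕ} (hL : IsLat N s) {n m k : ℕ} (hk : k ≤ n)
    (H : Set ((ℤ × ℤ) × (Fin (k + 1) → ℤ × ℤ) × (Fin (m + 1) → ℤ × ℤ)))
    (G : (ℤ × ℤ) × (Fin (k + 1) → ℤ × ℤ) × (Fin (m + 1) → ℤ × ℤ) → ℝ) :
    meanH N n m k H G = mean N Set.univ (psi k m ⁻¹' H) (n + m) (fun o => G (psi k m o)) := by
  unfold meanH mean
  rw [ncard_event hL hk, event_eq hL hk, finsum_mem_image (J_injOn _)]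
  congr 1
  refine finsum_mem_congr rfl fun ω _ => ?_
  rw [part_J hk]

/-- **Theorem** (square lattice with `s = 2`, triangular lattice with `s = 1`). There is `K` such
that for all `k < n` and all `m` with `n + m ≥ 2` and for every event `H` for the triple (end point
of the first walk, first `k + 1` sites of the first walk, second walk) which has the conditional
probability `q > 0` given that the two walks with `n` and `m` steps do not intersect: the
conditional means of all functions `0 ≤ G ≤ 1` of this triple, given non-intersection and `H`, for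
first walks with `n + s` and with `n` steps differ by at most
`K ((log² (n + m) + log (1/q)) / (n - k))^(1/2)`. -/
theorem result (N : Set (ℤ × ℤ)) (s : ℕ) (hL : (N = sqSteps ∧ s = 2) ∨ (N = triSteps ∧ s = 1)) :
    ∃ K : ℝ, ∀ n m k : ℕ, k < n → 2 ≤ n + m →
      ∀ H : Set ((ℤ × ℤ) × (Fin (k + 1) → ℤ × ℤ) × (Fin (m + 1) → ℤ × ℤ)), 0 < probH N n m k H →
      ∀ G : (ℤ × ℤ) × (Fin (k + 1) → ℤ × ℤ) × (Fin (m + 1) → ℤ × ℤ) → ℝ,
      (∀ o, 0 ≤ G o) → (∀ o, G o ≤ 1) →
      |meanH N (n + s) m k H G - meanH N n m k H G| ≤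
        K * √((Real.log (n + m : ℕ) ^ 2 + Real.log (1 / probH N n m k H)) / (n - k : ℕ)) := by
  have hL' : IsLat N s := hL
  obtain ⟨R, hR, htv⟩ := tv hL'
  refine ⟨R, ?_⟩
  intro n m k hkn hnm H hq G hG0 hG1
  have e : prob N Set.univ (psi k m ⁻¹' H) (n + m) = probH N n m k H := by
    unfold prob probH
    rw [ncard_event hL' hkn.le, ncard_pairs hL']
  have h1 := htv 0 (n - k) (k + m) Set.univ (psi k m ⁻¹' H) (by omega) (by omega) (by
    rw [show 0 + (n - k) + (k + m) = n + m by omega, e]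
    exact hq) (fun o => G (psi k m o)) (fun o => hG0 _) (fun o => hG1 _)
  rw [show 0 + (n - k) + (k + m) = n + m by omega, e] at h1
  rw [meanH_eq hL' (by omega), meanH_eq hL' (by omega), show n + s + m = n + m + s by ring]
  exact h1

end Pool.Agent.Results.MP_8c6f77_pr.ConditionedPairs
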