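import Pool.Agent.Q219.SAW.FamP
import Pool.Agent.Q219.SAW.Site

/-!
Two independent self-avoiding walks on the square lattice which start at two different points, at
any distance: lower bound for the probability that they do not intersect, and regularity of this
probability and of the conditional law in the length of one of the walks, uniformly in the distance
and in the length of the other walk.
-/

set_option autoImplicit false

namespace Pool.Agent.Results.MP_8c6f77_pr.DistantStarts

open Q219.SAW.Std Finset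

/-- the pairs of self-avoiding walks with `n` and `m` steps from the origin such that the first
walk does not meet the second walk translated by `y` -/
def pairs (y : ℤ × ℤ) (n m : ℕ) : Set ((Fin (n + 1) → ℤ × ℤ) × (Fin (m + 1) → ℤ × ℤ)) :=
  {p | IsSAW sqSteps n p.1 ∧ IsSAW sqSteps m p.2 ∧ ∀ i j, p.1 i ≠ y + p.2 j}

/-- the probability that two independent uniform self-avoiding walks with `n` and `m` steps,
started at `0` and at `y`, do not meet -/
noncomputable def P (y : ℤ × ℤ) (n m : ℕ) : ℝ :=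
  ((pairs y n m).ncard : ℝ) / (c sqSteps n * c sqSteps m)

/-- the outer part of the first walk (its first `a + 1` and its last `b + 1` sites) and the second
walk -/
def part (a b : ℕ) {n m : ℕ} (p : (Fin (n + 1) → ℤ × ℤ) × (Fin (m + 1) → ℤ × ℤ)) :
    Pairs a b × (Fin (m + 1) → ℤ × ℤ) := (outer a b p.1, p.2)

/-- the pairs for which the event `H` occurs -/
def event (y : ℤ × ℤ) (n m : ℕ) {a b : ℕ} (H : Set (Pairs a b × (Fin (m + 1) → ℤ × ℤ))) :
    Set ((Fin (n + 1) → ℤ × ℤ) × (Fin (m + 1) → ℤ × ℤ)) :=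
  {p | p ∈ pairs y n m ∧ part a b p ∈ H}

/-- the conditional probability of `H` given that the walks do not meet -/
noncomputable def probH (y : ℤ × ℤ) (n m : ℕ) {a b : ℕ}
    (H : Set (Pairs a b × (Fin (m + 1) → ℤ × ℤ))) : ℝ :=
  ((event y n m H).ncard : ℝ) / ((pairs y n m).ncard : ℝ)

/-- the conditional mean of `G` given that the walks do not meet and given `H` -/
noncomputable def meanH (y : ℤ × ℤ) (n m : ℕ) {a b : ℕ}
    (H : Set (Pairs a b × (Fin (m + 1) → ℤ × ℤ)))
    (G : Pairs a b × (Fin (m + 1) → ℤ × ℤ) → ℝ) : ℝ :=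
  (∑ᶠ p ∈ event y n m H, G (part a b p)) / ((event y n m H).ncard : ℝ)

/-- the second walks -/
noncomputable def V (m : ℕ) : Finset (Fin (m + 1) → ℤ × ℤ) :=
  (finite (Or.inl ⟨rfl, rfl⟩ : IsLat sqSteps 2) m).toFinset

/-- the domain for a second walk -/
def D (y : ℤ × ℤ) {m : ℕ} (w : Fin (m + 1) → ℤ × ℤ) : Set (ℤ × ℤ) := {x | ∀ j, x ≠ y + w j}

theorem hLat : IsLat sqSteps 2 := Or.inl ⟨rfl, rfl⟩

theorem V_card (m : ℕ) : ((V m).card : ℝ) = c sqSteps m := by
  unfold V c
  rw [Set.ncard_eq_toFinset_card _ (finite hLat m)]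

theorem V_ne (m : ℕ) : (V m).Nonempty := by
  rw [← card_pos]
  have h := c_pos hLat m
  rw [← V_card] at h
  exact_mod_cast h

theorem event_eq (y : ℤ × ℤ) (n m : ℕ) {a b : ℕ} (H : Set (Pairs a b × (Fin (m + 1) → ℤ × ℤ))) :
    event y n m H = {p | p.2 ∈ V m ∧ p.1 ∈ walks sqSteps (D y p.2) {o | (o, p.2) ∈ H} n} := by
  ext p
  unfold event pairs walks V D part
  simp only [Set.mem_ofPred_eq, Set.Finite.mem_toFinset, ne_eq]
  tauto

theorem pairs_eq (y : ℤ × ℤ) (n m a b : ℕ) :
    pairs y n m = event y n m (Set.univ : Set (Pairs a b × (Fin (m + 1) → ℤ × ℤ))) := by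
  ext p
  unfold event
  simp

theorem wfin (D : Set (ℤ × ℤ)) {a b : ℕ} (H : Set (Pairs a b)) (n : ℕ) :
    (walks sqSteps D H n).Finite := (finite hLat n).subset fun _ h => h.1

theorem ncard_event (y : ℤ × ℤ) (n m : ℕ) {a b : ℕ}
    (H : Set (Pairs a b × (Fin (m + 1) → ℤ × ℤ))) :
    ((event y n m H).ncard : ℝ) = fc sqSteps (V m) (D y) (fun w => {o | (o, w) ∈ H}) n := by
  rw [event_eq]
  exact card_fam (V m) (fun w => walks sqSteps (D y w) {o | (o, w) ∈ H} n) (fun _ => wfin _ _ _)

theorem meanH_eq (y : ℤ × ℤ) (n m : ℕ) {a b : ℕ}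
    (H : Set (Pairs a b × (Fin (m + 1) → ℤ × ℤ))) (G : Pairs a b × (Fin (m + 1) → ℤ × ℤ) → ℝ) :
    meanH y n m H G = fm sqSteps (V m) (D y) (fun w => {o | (o, w) ∈ H}) n
      (fun w o => G (o, w)) := by
  unfold meanH fm
  rw [ncard_event, event_eq]
  congr 1
  exact sum_fam (V m) (fun w => walks sqSteps (D y w) {o | (o, w) ∈ H} n)
    (fun _ => wfin _ _ _) (fun x w => G (outer a b x, w))

theorem P_eq (y : ℤ × ℤ) (n m a b : ℕ) : P y n m * (c sqSteps n * c sqSteps m) =
    fc sqSteps (V m) (D y) (fun w => {o | (o, w) ∈ (Set.univ : Set (Pairs a b × (Fin (m + 1) → ℤ × ℤ)))}) n := by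
  have h1 := c_pos hLat n
  have h2 := c_pos hLat m
  rw [← ncard_event, ← pairs_eq]
  unfold P
  field_simp

/-- product events -/
theorem P_ge (y : ℤ × ℤ) (n m : ℕ) (E F : Set (ℤ × ℤ)) (h : ∀ x ∈ E, ∀ z ∈ F, x ≠ y + z) :
    prob sqSteps E (Set.univ : Set (Pairs 0 0)) n * prob sqSteps F (Set.univ : Set (Pairs 0 0)) m ≤
      P y n m := by
  have h1 := c_pos hLat n
  have h2 := c_pos hLat m
  unfold prob P
  rw [div_mul_div_comm]
  refine div_le_div_of_nonneg_right ?_ (by positivity)
  rw [← Nat.cast_mul, ← Set.ncard_prod]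
  refine Nat.cast_le.2 (Set.ncard_le_ncard ?_ ?_)
  · rintro ⟨w, w'⟩ ⟨hw, hw'⟩
    exact ⟨hw.1, hw'.1, fun i j => h _ (hw.2.1 i) _ (hw'.2.1 j)⟩
  · refine ((finite hLat n).prod (finite hLat m)).subset ?_
    rintro p ⟨h3, h4, -⟩
    exact ⟨h3, h4⟩

/-- lower bound -/
theorem low : ∃ K : ℝ, 0 ≤ K ∧ ∀ y : ℤ × ℤ, y ≠ 0 → ∀ n m : ℕ, 2 ≤ n → 2 ≤ m →
    Real.exp (-(K * (Real.log n ^ 2 + Real.log m ^ 2))) ≤ P y n m := by
  obtain ⟨K, hK, h⟩ := half_any
  refine ⟨K, hK, ?_⟩
  intro y hy n m hn hm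
  obtain ⟨a1, a2, a3, a4⟩ := h n hn 0 0
  obtain ⟨b1, b2, b3, b4⟩ := h m hm 0 0
  have e : Real.exp (-(K * (Real.log n ^ 2 + Real.log m ^ 2))) =
      Real.exp (-(K * Real.log n ^ 2)) * Real.exp (-(K * Real.log m ^ 2)) := by
    rw [← Real.exp_add]
    congr 1
    ring
  rw [e]
  have hy' : y.1 < 0 ∨ 0 < y.1 ∨ y.2 < 0 ∨ 0 < y.2 := by
    by_contra hc
    refine hy (Prod.ext ?_ ?_)
    · show y.1 = 0
      omega
    · show y.2 = 0
      omega
  rcases hy' with hy' | hy' | hy' | hy'
  · refine (mul_le_mul a1 b2 (Real.exp_pos _).le ((Real.exp_pos _).le.trans a1)).trans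
      (P_ge y n m _ _ ?_)
    intro x hx z hz hxz
    have hx' : 0 ≤ x.1 := hx
    have hz' : z.1 ≤ 0 := hz
    rw [hxz, Prod.fst_add] at hx'
    omega
  · refine (mul_le_mul a2 b1 (Real.exp_pos _).le ((Real.exp_pos _).le.trans a2)).trans
      (P_ge y n m _ _ ?_)
    intro x hx z hz hxz
    have hx' : x.1 ≤ 0 := hx
    have hz' : 0 ≤ z.1 := hz
    rw [hxz, Prod.fst_add] at hx'
    omega
  · refine (mul_le_mul a3 b4 (Real.exp_pos _).le ((Real.exp_pos _).le.trans a3)).trans
      (P_ge y n m _ _ ?_)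
    intro x hx z hz hxz
    have hx' : 0 ≤ x.2 := hx
    have hz' : z.2 ≤ 0 := hz
    rw [hxz, Prod.snd_add] at hx'
    omega
  · refine (mul_le_mul a4 b3 (Real.exp_pos _).le ((Real.exp_pos _).le.trans a4)).trans
      (P_ge y n m _ _ ?_)
    intro x hx z hz hxz
    have hx' : x.2 ≤ 0 := hx
    have hz' : 0 ≤ z.2 := hz
    rw [hxz, Prod.snd_add] at hx'
    omega

/-- **Theorem** (square lattice). There are `K` and `δ > 0` such that for every `y ≠ 0` and all
`n, m ≥ 2`:
(1) two independent uniform self-avoiding walks with `n` and `m` steps, started at `0` and at `y`,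
do not meet with probability `P y n m ≥ exp (-K (log² n + log² m))`;
(2) `|P y (n + 2) m / P y n m - 1| ≤ K ((log² n + log² m) / n)^(1/2)` if
`log² n + log² m ≤ δ n`;
(3) if `n = a + L + b` with `L ≥ 1`, then for every event `H` for the outer part of the first walk
(its first `a + 1` and its last `b + 1` sites) and the second walk, which has the conditional
probability `q > 0` given that the walks do not meet, the conditional means of all functions
`0 ≤ G ≤ 1` of the outer part of the first walk and the second walk, given that they do not meet and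
given `H`, for first walks with `n + 2` and with `n` steps differ by at most
`K ((log² n + log² m + log (1/q)) / L)^(1/2)`. -/
theorem result : ∃ K δ : ℝ, 0 < δ ∧ ∀ y : ℤ × ℤ, y ≠ 0 → ∀ n m : ℕ, 2 ≤ n → 2 ≤ m →
    Real.exp (-(K * (Real.log n ^ 2 + Real.log m ^ 2))) ≤ P y n m ∧
    (Real.log n ^ 2 + Real.log m ^ 2 ≤ δ * n →
      |P y (n + 2) m / P y n m - 1| ≤ K * √((Real.log n ^ 2 + Real.log m ^ 2) / n)) ∧
    ∀ a L b : ℕ, n = a + L + b → 1 ≤ L → ∀ H : Set (Pairs a b × (Fin (m + 1) → ℤ × ℤ)),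
      0 < probH y n m H → ∀ G : Pairs a b × (Fin (m + 1) → ℤ × ℤ) → ℝ,
      (∀ o, 0 ≤ G o) → (∀ o, G o ≤ 1) →
      |meanH y (n + 2) m H G - meanH y n m H G| ≤
        K * √((Real.log n ^ 2 + Real.log m ^ 2 + Real.log (1 / probH y n m H)) / L) := by
  obtain ⟨K₀, hK₀, hlow⟩ := low
  obtain ⟨R, δ, hR, hδ, hwin⟩ := fam_win hLat
  obtain ⟨R', hR', htv⟩ := fam_tv hLat
  obtain ⟨B, hB⟩ : ∃ B : ℝ, B = 1 + K₀ := ⟨_, rfl⟩
  have hB1 : 1 ≤ B := by linarith
  have hδ'0 : 0 < min δ (1 / (4 * R ^ 2)) / B := by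
    have := lt_min hδ (show 0 < 1 / (4 * R ^ 2) by positivity)
    positivity
  refine ⟨max K₀ (max (4 * R * √B) (R' * √B)), min δ (1 / (4 * R ^ 2)) / B, hδ'0, ?_⟩
  intro y hy n m hn hm
  have hl := hlow y hy n m hn hm
  obtain ⟨x, hx⟩ : ∃ x : ℝ, x = Real.log n ^ 2 + Real.log m ^ 2 := ⟨_, rfl⟩
  rw [← hx] at hl ⊢
  have hx0 : 0 ≤ x := by rw [hx]; positivity
  have hP0 : 0 < P y n m := (Real.exp_pos _).trans_le hl
  have hcn := c_pos hLat n
  have hcm := c_pos hLat m
  refine ⟨le_trans (Real.exp_le_exp.2 (neg_le_neg ?_)) hl, ?_, ?_⟩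
  · exact mul_le_mul_of_nonneg_right (le_max_left _ _) hx0
  · intro hxn
    have hn0 : (0 : ℝ) < n := by exact_mod_cast (show 0 < n by omega)
    have hBx : B * x ≤ min δ (1 / (4 * R ^ 2)) * n := by
      have := mul_le_mul_of_nonneg_left hxn (show 0 ≤ B by linarith)
      refine this.trans (le_of_eq ?_)
      field_simp
    have hlogn : Real.log ((0 + n + 0 : ℕ) : ℝ) ^ 2 ≤ B * x := by
      rw [zero_add, add_zero]
      have h1 : Real.log n ^ 2 ≤ x := by
        rw [hx]
        have := sq_nonneg (Real.log (m : ℝ))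
        linarith
      nlinarith
    have hsmall : B * x ≤ δ * n :=
      hBx.trans (mul_le_mul_of_nonneg_right (min_le_left _ _) hn0.le)
    have hexp : Real.exp (-(B * x)) ≤ P y n m := by
      refine le_trans (Real.exp_le_exp.2 (neg_le_neg ?_)) hl
      rw [hB]
      linarith
    obtain ⟨g1, g2, -⟩ := hwin (V m) (D y) 0 n 0 (fun w => {o | (o, w) ∈
      (Set.univ : Set (Pairs 0 0 × (Fin (m + 1) → ℤ × ℤ)))}) (B * x) (V_ne m) (by omega)
      (by omega) hlogn hsmall (by
        rw [zero_add, add_zero, ← P_eq, V_card, mul_comm (c sqSteps n)]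
        exact mul_le_mul_of_nonneg_right hexp (by positivity))
    obtain ⟨f1, f2, -⟩ := hwin ({()} : Finset Unit) (fun _ => Set.univ) 0 n 0
      (fun _ => (Set.univ : Set (Pairs 0 0))) (B * x) (by simp) (by omega)
      (by omega) hlogn hsmall (by
        have e : fc sqSteps ({()} : Finset Unit) (fun _ => Set.univ) 
            (fun _ => (Set.univ : Set (Pairs 0 0))) (0 + n + 0) = c sqSteps (0 + n + 0) := by
          unfold fc walks c
          simp
        rw [e, card_singleton, Nat.cast_one, one_mul]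
        refine mul_le_of_le_one_left (c_pos hLat _).le ?_
        rw [Real.exp_le_one_iff]
        have : 0 ≤ B * x := by positivity
        linarith)
    have e : ∀ k, fc sqSteps ({()} : Finset Unit) (fun _ => Set.univ)
        (fun _ => (Set.univ : Set (Pairs 0 0))) k = c sqSteps k := by
      intro k
      unfold fc walks c
      simp
    rw [e, e, zero_add, add_zero] at f2
    rw [← P_eq, ← P_eq, zero_add, add_zero] at g2
    have hμ : 0 < mu sqSteps := by
      have := (c_bounds hLat).1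
      linarith
    have hhalf : R * √(B * x / n) ≤ 1 / 2 := by
      have h1 : B * x / n ≤ (1 / (2 * R)) ^ 2 := by
        rw [div_le_iff₀ hn0]
        refine hBx.trans (mul_le_mul_of_nonneg_right ?_ hn0.le)
        refine (min_le_right _ _).trans (le_of_eq ?_)
        field_simp
        norm_num
      have h2 : √(B * x / n) ≤ 1 / (2 * R) := by
        rw [Real.sqrt_le_left (by positivity)]
        exact h1
      calc R * √(B * x / n) ≤ R * (1 / (2 * R)) := mul_le_mul_of_nonneg_left h2 hR.le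
        _ = 1 / 2 := by field_simp
    have h4 := TH966.AK.ratio_aux (mul_pos hP0 (mul_pos hcn hcm)) hcn (pow_pos hμ 2) g2 f2 hhalf
    have e2 : P y (n + 2) m * (c sqSteps (n + 2) * c sqSteps m) / c sqSteps (n + 2) /
        (P y n m * (c sqSteps n * c sqSteps m) / c sqSteps n) = P y (n + 2) m / P y n m := by
      have := c_pos hLat (n + 2)
      field_simp
    rw [e2] at h4
    refine h4.trans ?_
    rw [mul_div_assoc, Real.sqrt_mul (by linarith), ← mul_assoc, ← mul_assoc]
    refine mul_le_mul_of_nonneg_right ?_ (Real.sqrt_nonneg _)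
    exact (le_max_left _ _).trans (le_max_right _ _)
  · intro a L b hnab hL H hq G hG0 hG1
    subst hnab
    obtain ⟨q, hqd⟩ : ∃ q, q = probH y (a + L + b) m H := ⟨_, rfl⟩
    rw [← hqd] at hq ⊢
    have hpc : 0 < ((pairs y (a + L + b) m).ncard : ℝ) := by
      have h1 : 0 < ((pairs y (a + L + b) m).ncard : ℝ) / (c sqSteps (a + L + b) * c sqSteps m) :=
        hP0
      by_contra hc
      have h2 : ((pairs y (a + L + b) m).ncard : ℝ) / (c sqSteps (a + L + b) * c sqSteps m) ≤ 0 :=
        div_nonpos_of_nonpos_of_nonneg (not_lt.1 hc) (by positivity)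
      linarith
    have hq1 : q ≤ 1 := by
      rw [hqd]
      unfold probH
      refine div_le_one_of_le₀ ?_ hpc.le
      refine Nat.cast_le.2 (Set.ncard_le_ncard (fun p hp => hp.1) ?_)
      refine ((finite hLat (a + L + b)).prod (finite hLat m)).subset ?_
      rintro p ⟨h3, h4, -⟩
      exact ⟨h3, h4⟩
    have hlq : 0 ≤ Real.log (1 / q) := Real.log_nonneg (by rw [le_div_iff₀ hq]; linarith)
    obtain ⟨Λ, hΛ⟩ : ∃ Λ : ℝ, Λ = B * x + Real.log (1 / q) := ⟨_, rfl⟩
    have hexp : Real.exp (-Λ) ≤ q * P y (a + L + b) m := by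
      rw [hΛ, neg_add, Real.exp_add, one_div, Real.log_inv, neg_neg, Real.exp_log hq, mul_comm]
      refine mul_le_mul_of_nonneg_left ?_ hq.le
      refine le_trans (Real.exp_le_exp.2 (neg_le_neg ?_)) hl
      rw [hB]
      linarith
    have h1 := htv (V m) (D y) a L b (fun w => {o | (o, w) ∈ H}) Λ (V_ne m) (by omega) hL (by
        have h2 : Real.log ((a + L + b : ℕ) : ℝ) ^ 2 ≤ x := by
          rw [hx]
          have := sq_nonneg (Real.log (m : ℝ))
          linarith
        rw [hΛ]
        nlinarith) (by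
        rw [← ncard_event]
        have h3 : ((event y (a + L + b) m H).ncard : ℝ) =
            q * P y (a + L + b) m * (c sqSteps (a + L + b) * c sqSteps m) := by
          rw [hqd]
          unfold probH P
          field_simp
        rw [h3, V_card, mul_comm (c sqSteps m)]
        exact mul_le_mul_of_nonneg_right hexp (by positivity)) (fun w o => G (o, w))
      (fun _ _ => hG0 _) (fun _ _ => hG1 _)
    rw [meanH_eq, meanH_eq]
    refine h1.trans ?_
    have hL0 : (0 : ℝ) < L := by exact_mod_cast hL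
    have h5 : √(Λ / L) ≤ √B * √((x + Real.log (1 / q)) / L) := by
      rw [← Real.sqrt_mul (by linarith)]
      refine Real.sqrt_le_sqrt ?_
      rw [← mul_div_assoc]
      refine div_le_div_of_nonneg_right ?_ hL0.le
      rw [hΛ, mul_add]
      have : Real.log (1 / q) ≤ B * Real.log (1 / q) := le_mul_of_one_le_left hlq hB1
      linarith
    refine (mul_le_mul_of_nonneg_left h5 hR'.le).trans ?_
    rw [← mul_assoc]
    refine mul_le_mul_of_nonneg_right ?_ (Real.sqrt_nonneg _)
    exact (le_max_right _ _).trans (le_max_right _ _)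

end Pool.Agent.Results.MP_8c6f77_pr.DistantStarts
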