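import Pool.Agent.Q215.SAW.GSer
import Pool.Agent.Q215.SAW.Lat
import Pool.Agent.Q215.SAW.Dbl

/-!
Two independent self-avoiding walks on the square, triangular and honeycomb lattices: the exponent of
the non-intersection probability `a_{2n} / a_n²` exists (with a given value) as soon as it does along
a sequence of lengths with gaps `o(√(n log n))`, for instance along the perfect squares; polynomial
lower bounds and the sharp asymptotic form are also determined by sparse sequences.
-/

set_option autoImplicit false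

namespace Pool.Agent.Results.MP_8c6f77_pr.PerfectSquares

open Filter Topology

/-- The square, triangular and honeycomb lattices (in integer coordinates), with the number `s`
of steps by which the lengths of walks are changed: `s = 1` for the triangular lattice and `s = 2`
for the two bipartite lattices. -/
def IsLattice (Adj : ℤ × ℤ → ℤ × ℤ → Prop) (s : ℕ) : Prop :=
  (Adj = (fun p q : ℤ × ℤ => |p.1 - q.1| + |p.2 - q.2| = 1) ∧ s = 2) ∨
  (Adj = (fun p q : ℤ × ℤ =>
      q - p ∈ ({(1, 0), (-1, 0), (0, 1), (0, -1), (1, -1), (-1, 1)} : Set (ℤ × ℤ))) ∧ s = 1) ∨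
  (Adj = (fun p q : ℤ × ℤ =>
      q - p = (1, 0) ∨ q - p = (-1, 0) ∨
      (q - p = (0, 1) ∧ Even (p.1 + p.2)) ∨
      (q - p = (0, -1) ∧ Even (q.1 + q.2))) ∧ s = 2)

/-- the number of `n`-step self-avoiding walks from the origin -/
noncomputable def a (Adj : ℤ × ℤ → ℤ × ℤ → Prop) (n : ℕ) : ℝ :=
  (Set.ncard {f : Fin (n + 1) → ℤ × ℤ |
    f 0 = 0 ∧ Function.Injective f ∧ ∀ i : Fin n, Adj (f i.castSucc) (f i.succ)} : ℝ)

/-- the connectivity constant -/
noncomputable def mu (Adj : ℤ × ℤ → ℤ × ℤ → Prop) : ℝ :=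
  ⨅ n : {n : ℕ // 1 ≤ n}, a Adj n.1 ^ ((1 : ℝ) / (n.1 : ℝ))

/-- The probability that two independent uniform `n`-step self-avoiding walks from the origin do not
meet again (the quotient `a_{2n} / a_n²`, see the problem file). -/
noncomputable def P (Adj : ℤ × ℤ → ℤ × ℤ → Prop) (n : ℕ) : ℝ := a Adj (2 * n) / a Adj n ^ 2

/-- The lengths `t 0, t 1, …` tend to infinity and `t (j+1) - t j = o(√(t j log (t j)))`. -/
def IsSparse (t : ℕ → ℕ) : Prop :=
  Tendsto t atTop atTop ∧
    Tendsto (fun j => ((t (j + 1) : ℝ) - t j) / √(t j * Real.log (t j))) atTop (𝓝 0)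

/-- The numbers `t 0, t 1, …` tend to infinity and `t (j+1) - t j = o(√(t j))`. -/
def IsSmall (t : ℕ → ℕ) : Prop :=
  Tendsto t atTop atTop ∧
    Tendsto (fun j => ((t (j + 1) : ℝ) - t j) / √(t j : ℝ)) atTop (𝓝 0)

theorem fn_all (A : ℤ × ℤ → ℤ × ℤ → Prop) : Q215.SAW.WOK A 0 (fun _ => 1) 1 :=
  ⟨TH966.AK.fn_one 0, le_rfl, fun _ _ _ _ _ _ => by norm_num⟩

theorem facts {Adj : ℤ × ℤ → ℤ × ℤ → Prop} {s : ℕ} (h : IsLattice Adj s) :
    ∃ (Z : TH966.AK.Rule Adj) (K : ℝ), Z.s = s ∧ TH966.AK.Growth Z (mu Adj) K := by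
  have hmu : ∀ A : ℤ × ℤ → ℤ × ℤ → Prop, mu A = Q215.SAW.muu A := fun A => rfl
  have key : Adj = Q215.SAW.sqAdj ∨ Adj = Q215.SAW.triAdj ∨ Adj = Q215.SAW.hexAdj := by
    rcases h with ⟨h, -⟩ | ⟨h, -⟩ | ⟨h, -⟩
    · exact Or.inl h
    · exact Or.inr (Or.inl h)
    · exact Or.inr (Or.inr h)
  rw [hmu]
  rcases h with ⟨h, rfl⟩ | ⟨h, rfl⟩ | ⟨h, rfl⟩
  · obtain ⟨K, hK⟩ := Q215.SAW.sq_nice
    have e : Adj = Q219.SAW.Sq.A := by
      rw [← Q215.SAW.sq_eq]; exact h
    subst e
    exact ⟨_, K, rfl, hK.gr⟩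
  · obtain ⟨K, hK⟩ := Q215.SAW.tri_nice
    have e : Adj = TH966.AK.Tri.A := by
      rw [← Q215.SAW.tri_eq]; exact h
    subst e
    exact ⟨_, K, rfl, hK.gr⟩
  · obtain ⟨K, hK⟩ := Q215.SAW.hex_growth'
    have e : Adj = TH966.AK.Hex.A := by
      rw [← Q215.SAW.hex_eq]; exact h
    subst e
    exact ⟨_, K, rfl, hK⟩

theorem a_eq {Adj : ℤ × ℤ → ℤ × ℤ → Prop} (Z : TH966.AK.Rule Adj) (n : ℕ) :
    a Adj n = TH966.AK.WF Adj (fun _ => 1) n := by
  rw [TH966.AK.WF_one, ← Q215.SAW.cc_card Z]
  rfl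

/-- The perfect squares are sparse in this sense. -/
theorem squares : IsSparse (fun j => (j + 1) ^ 2) := by
  refine ⟨?_, Q215.SAW.Cvx.sparse_squares⟩
  refine tendsto_atTop_mono (fun j => ?_) tendsto_id
  simp only [id]
  nlinarith

/-- **Theorem.** Let `Adj` be the square, the triangular or the honeycomb lattice, and
`P n = a_{2n} / a_n²` the probability that two independent `n`-step self-avoiding walks from the
origin do not meet again.

(1) The perfect squares are sparse.

(2) If `P n ≥ n^(-b)` for all large `n` of a sparse sequence, then for every `ε > 0`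
`P n ≥ n^(-b-ε)` and `a_n ≤ μ^n n^(b+ε)` for all large `n`.

(3) For every real `α` and every sparse sequence the following are equivalent:
`P n = n^(-α+o(1))` along the sequence, `P n = n^(-α+o(1))` along all `n`, and
`a_n = μ^n n^(α+o(1))` along all `n`.

(4) Let `t` have gaps `o(√t)`. If `P n * n^α → A > 0` along `n = s t_j`, then `P n * n^α → A` and
`a_n / (μ^n n^α) → 2^α / A` along all multiples `n` of `s`. -/
theorem result : IsSparse (fun j => (j + 1) ^ 2) ∧
    ∀ (Adj : ℤ × ℤ → ℤ × ℤ → Prop) (s : ℕ), IsLattice Adj s →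
    (∀ (t : ℕ → ℕ) (b : ℝ), IsSparse t → 0 ≤ b →
      (∀ᶠ j in atTop, (t j : ℝ) ^ (-b) ≤ P Adj (t j)) →
      ∀ ε : ℝ, 0 < ε → ∀ᶠ n : ℕ in atTop, (n : ℝ) ^ (-b - ε) ≤ P Adj n ∧
        a Adj n ≤ mu Adj ^ n * (n : ℝ) ^ (b + ε)) ∧
    (∀ (t : ℕ → ℕ) (α : ℝ), IsSparse t →
      ((Tendsto (fun j => Real.log (P Adj (t j)) / Real.log (t j)) atTop (𝓝 (-α)) ↔
        Tendsto (fun n : ℕ => Real.log (P Adj n) / Real.log n) atTop (𝓝 (-α))) ∧
      (Tendsto (fun n : ℕ => Real.log (P Adj n) / Real.log n) atTop (𝓝 (-α)) ↔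
        Tendsto (fun n : ℕ => Real.log (a Adj n / mu Adj ^ n) / Real.log n) atTop (𝓝 α)))) ∧
    ∀ (t : ℕ → ℕ) (α A : ℝ), IsSmall t → 0 < A →
      Tendsto (fun j => P Adj (s * t j) * ((s * t j : ℕ) : ℝ) ^ α) atTop (𝓝 A) →
      Tendsto (fun m : ℕ => P Adj (s * m) * ((s * m : ℕ) : ℝ) ^ α) atTop (𝓝 A) ∧
      Tendsto (fun m : ℕ => a Adj (s * m) / (mu Adj ^ (s * m) * ((s * m : ℕ) : ℝ) ^ α)) atTop
        (𝓝 (2 ^ α / A)) := by
  refine ⟨squares, ?_⟩
  intro Adj s h
  obtain ⟨Z, K, hs, G⟩ := facts h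
  have E := Q215.SAW.ser G (fn_all Adj)
  have hμ := G.hμ
  have hμ0 : 0 < mu Adj := by linarith
  obtain ⟨ell, hell⟩ : ∃ ell : ℕ → ℝ, ell = fun n => Real.log (a Adj n / mu Adj ^ n) := ⟨_, rfl⟩
  have hell' : ell = fun n => Real.log (TH966.AK.WF Adj (fun _ => 1) n / mu Adj ^ n) := by
    rw [hell]
    funext n
    rw [a_eq Z]
  rw [← hell'] at E
  have hcard : ∀ n, a Adj n = ((TH966.AK.Kw Adj n).card : ℝ) := fun n => by
    rw [a_eq Z, TH966.AK.WF_one]
  have hlow : ∀ n, mu Adj ^ n ≤ a Adj n := fun n => by rw [hcard]; exact G.low n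
  have hapos : ∀ n, 0 < a Adj n := fun n => lt_of_lt_of_le (by positivity) (hlow n)
  have hpos : ∀ n, 0 ≤ ell n := by
    intro n
    rw [hell]
    refine Real.log_nonneg ?_
    rw [one_le_div (by positivity)]
    exact hlow n
  have hbd : ∀ᶠ n : ℕ in atTop, |ell n| ≤ K * Real.log n ^ 2 + 0 := by
    filter_upwards [eventually_ge_atTop 2] with n hn
    rw [abs_of_nonneg (hpos n), hell, add_zero]
    simp only
    rw [Real.log_le_iff_le_exp (div_pos (hapos n) (by positivity)), div_le_iff₀ (by positivity),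
      mul_comm, hcard]
    exact G.up n hn
  have hPpos : ∀ n, 0 < P Adj n := fun n => div_pos (hapos _) (pow_pos (hapos _) 2)
  have hlogP : ∀ n, Real.log (P Adj n) = ell (2 * n) - 2 * ell n := by
    intro n
    have h1 := (hapos (2 * n)).ne'
    have h2 := (hapos n).ne'
    have h3 : (mu Adj ^ (2 * n)) ≠ 0 := by positivity
    have h4 : (mu Adj ^ n) ≠ 0 := by positivity
    unfold P
    rw [hell]
    simp only
    rw [Real.log_div h1 (pow_ne_zero 2 h2), Real.log_div h1 h3, Real.log_div h2 h4, Real.log_pow,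
      Real.log_pow, Real.log_pow]
    push_cast
    ring
  have hfull : ∀ α : ℝ, (Tendsto (fun n : ℕ => Real.log (P Adj n) / Real.log n) atTop (𝓝 (-α)) ↔
      Tendsto (fun n : ℕ => ell n / Real.log n) atTop (𝓝 α)) := by
    intro α
    constructor
    · intro h1
      have hid : Q215.SAW.Cvx.Sparse (fun j => j) := by
        unfold Q215.SAW.Cvx.Sparse
        have h2 : Tendsto (fun j : ℕ => 1 / √(Real.log (j : ℝ))) atTop (𝓝 0) :=
          (Real.tendsto_sqrt_atTop.comp Q215.SAW.Cvx.log_tend).const_div_atTop _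
        refine squeeze_zero_norm' ?_ h2
        filter_upwards [eventually_ge_atTop 3, Q215.SAW.Cvx.log_tend.eventually_ge_atTop 1]
          with j hj hl
        have hj1 : (1 : ℝ) ≤ j := by exact_mod_cast (show 1 ≤ j by omega)
        have e : ((j + 1 : ℕ) : ℝ) - j = 1 := by push_cast; ring
        rw [e, Real.norm_of_nonneg (by positivity)]
        refine one_div_le_one_div_of_le (Real.sqrt_pos.2 (by linarith))
          (Real.sqrt_le_sqrt (by nlinarith))
      refine E.dbl_lim G.hK hbd (Eventually.of_forall hpos) tendsto_id hid ?_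
      have h3 := h1.neg
      rw [neg_neg] at h3
      refine h3.congr fun n => ?_
      simp only [id]
      rw [hlogP]
      ring
    · intro h1
      have h2 : Tendsto (fun n : ℕ => ell (2 * n) / Real.log ((2 * n : ℕ) : ℝ)) atTop (𝓝 α) :=
        h1.comp (tendsto_id.const_mul_atTop' (by norm_num))
      have h3 : Tendsto (fun n : ℕ => Real.log ((2 * n : ℕ) : ℝ) / Real.log n) atTop (𝓝 1) := by
        have h4 : Tendsto (fun n : ℕ => Real.log 2 / Real.log (n : ℝ) + 1) atTop (𝓝 (0 + 1)) :=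
          (Q215.SAW.Cvx.log_tend.const_div_atTop _).add_const 1
        rw [zero_add] at h4
        refine h4.congr' ?_
        filter_upwards [eventually_ge_atTop 2, Q215.SAW.Cvx.log_tend.eventually_gt_atTop 0]
          with n hn hl
        have hn0 : (0 : ℝ) < n := by exact_mod_cast (show 0 < n by omega)
        push_cast
        rw [Real.log_mul (by norm_num) hn0.ne', add_div, div_self hl.ne']
      have h5 := (h2.mul h3).sub (h1.const_mul 2)
      have e : α * 1 - 2 * α = -α := by ring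
      rw [e] at h5
      refine h5.congr' ?_
      filter_upwards [eventually_ge_atTop 2, Q215.SAW.Cvx.log_tend.eventually_gt_atTop 0]
        with n hn hl
      have hn0 : (0 : ℝ) < ((2 * n : ℕ) : ℝ) := by exact_mod_cast (show 0 < 2 * n by omega)
      have hl2 : Real.log ((2 * n : ℕ) : ℝ) ≠ 0 := by
        have : Real.log (n : ℝ) ≤ Real.log ((2 * n : ℕ) : ℝ) :=
          Real.log_le_log (by exact_mod_cast (show 0 < n by omega)) (by exact_mod_cast (by omega))
        linarith
      rw [hlogP, sub_div, div_mul_div_cancel₀ hl2]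
      ring
  refine ⟨?_, ?_, ?_⟩
  · rintro t b ⟨ht, hsp⟩ hb0 hb ε hε
    have hb' : ∀ᶠ j in atTop, -(b * Real.log (t j)) ≤ ell (2 * t j) - 2 * ell (t j) := by
      filter_upwards [hb, ht.eventually_ge_atTop 1] with j h1 h2
      have htj : (0 : ℝ) < (t j : ℝ) := by exact_mod_cast h2
      have h3 := Real.log_le_log (Real.rpow_pos_of_pos htj _) h1
      rw [Real.log_rpow htj, hlogP] at h3
      linarith
    have h1 := E.dbl_low G.hK hbd (Eventually.of_forall hpos) ht hsp hb0 hb' hε
    have h2 : ∀ᶠ n : ℕ in atTop, ell n ≤ (b + ε) * Real.log n := by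
      refine E.dbl_up G.hK hbd ht hsp (fun δ hδ => ?_) hε
      filter_upwards [hb', (Q215.SAW.Cvx.log_tend.comp ht).eventually_gt_atTop 0] with j h3 h4
      simp only [Function.comp] at h4
      nlinarith
    filter_upwards [h1, h2, eventually_ge_atTop 1] with n h3 h4 h5
    have hn0 : (0 : ℝ) < n := by exact_mod_cast h5
    constructor
    · rw [← Real.log_le_log_iff (Real.rpow_pos_of_pos hn0 _) (hPpos n), Real.log_rpow hn0, hlogP]
      linarith
    · rw [hell] at h4
      simp only at h4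
      rw [Real.log_le_iff_le_exp (div_pos (hapos n) (by positivity)),
        div_le_iff₀ (by positivity)] at h4
      have e : (n : ℝ) ^ (b + ε) = Real.exp ((b + ε) * Real.log n) := by
        rw [Real.rpow_def_of_pos hn0, mul_comm]
      rw [e, mul_comm]
      exact h4
  · rintro t α ⟨ht, hsp⟩
    have hell2 : (fun n : ℕ => Real.log (a Adj n / mu Adj ^ n) / Real.log n) =
        fun n : ℕ => ell n / Real.log n := by
      rw [hell]
    refine ⟨⟨fun h1 => ?_, fun h1 => h1.comp ht⟩, ?_⟩
    · rw [hfull α]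
      refine E.dbl_lim G.hK hbd (Eventually.of_forall hpos) ht hsp ?_
      have h3 := h1.neg
      rw [neg_neg] at h3
      refine h3.congr fun n => ?_
      rw [hlogP]
      ring
    · rw [hell2]
      exact hfull α
  · rintro t α A ⟨ht, hsp⟩ hA hlim
    have hs1 : 1 ≤ s := hs ▸ G.hs
    have h0 := E.ac 0 (by have := G.hs; omega)
    rw [hs] at h0
    obtain ⟨D, k0, hD, hx⟩ := Q215.SAW.GapF.xF_ac (g := α) hs1 h0
    obtain ⟨x, hxd⟩ : ∃ x : ℕ → ℝ, x = Q215.SAW.GapF.xF ell s 0 α := ⟨_, rfl⟩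
    rw [← hxd] at hx
    have hxk : ∀ k, x k = ell (s * k) - α * Real.log ((s * k : ℕ) : ℝ) := by
      intro k; rw [hxd]; rfl
    have hrel : ∀ k : ℕ, 1 ≤ k → 2 * x k - x (2 * k) =
        α * Real.log 2 - Real.log (P Adj (s * k) * ((s * k : ℕ) : ℝ) ^ α) := by
      intro k hk
      have hsk : (0 : ℝ) < ((s * k : ℕ) : ℝ) := by exact_mod_cast Nat.mul_pos hs1 hk
      rw [Real.log_mul (hPpos _).ne' (Real.rpow_pos_of_pos hsk _).ne', Real.log_rpow hsk, hlogP,
        hxk, hxk]
      have e1 : s * (2 * k) = 2 * (s * k) := by ring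
      have e2 : ((2 * (s * k) : ℕ) : ℝ) = 2 * ((s * k : ℕ) : ℝ) := by push_cast; ring
      rw [e1, e2, Real.log_mul (by norm_num) hsk.ne']
      ring
    have hc : Tendsto (fun j => 2 * x (t j) - x (2 * t j)) atTop
        (𝓝 (α * Real.log 2 - Real.log A)) := by
      refine ((hlim.log hA.ne').const_sub (α * Real.log 2)).congr' ?_
      filter_upwards [ht.eventually_ge_atTop 1] with j hj
      rw [hrel _ hj]
    have hxb : ∀ᶠ k : ℕ in atTop, |x k| ≤ (2 * K + |α|) * Real.log k ^ 2 +
        (2 * K * Real.log s ^ 2 + |α| * (1 + Real.log s)) := by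
      have hmul : Tendsto (fun k : ℕ => s * k) atTop atTop := by
        refine tendsto_atTop_mono (fun k => ?_) tendsto_id
        simp only [id]
        nlinarith
      filter_upwards [hmul.eventually hbd, eventually_ge_atTop 1] with k h1 h2
      have hk0 : (0 : ℝ) < k := by exact_mod_cast h2
      have hs0 : (0 : ℝ) < s := by exact_mod_cast hs1
      have hlk : 0 ≤ Real.log (k : ℝ) := Real.log_nonneg (by exact_mod_cast h2)
      have hls : 0 ≤ Real.log (s : ℝ) := Real.log_nonneg (by exact_mod_cast hs1)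
      have e : Real.log ((s * k : ℕ) : ℝ) = Real.log s + Real.log k := by
        push_cast
        rw [Real.log_mul hs0.ne' hk0.ne']
      rw [e, add_zero] at h1
      rw [hxk, e]
      have h3 : |α * (Real.log s + Real.log k)| ≤ |α| * (Real.log k ^ 2 + 1 + Real.log s) := by
        rw [abs_mul, abs_of_nonneg (show 0 ≤ Real.log (s : ℝ) + Real.log k by positivity)]
        refine mul_le_mul_of_nonneg_left ?_ (abs_nonneg _)
        nlinarith [sq_nonneg (Real.log (k : ℝ) - 1)]
      have h4 : K * (Real.log s + Real.log k) ^ 2 ≤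
          2 * K * Real.log k ^ 2 + 2 * K * Real.log s ^ 2 := by
        have := mul_nonneg G.hK (sq_nonneg (Real.log (s : ℝ) - Real.log k))
        nlinarith
      have h5 := abs_sub (ell (s * k)) (α * (Real.log s + Real.log k))
      linarith
    have hxlim := Q215.SAW.Cvx.dbl_lim hx hD (by have := G.hK; positivity) hxb ht hsp hc
    constructor
    · have h1 : Tendsto (fun k : ℕ => 2 * x k - x (2 * k)) atTop
          (𝓝 (2 * (α * Real.log 2 - Real.log A) - (α * Real.log 2 - Real.log A))) :=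
        (hxlim.const_mul 2).sub (hxlim.comp (tendsto_id.const_mul_atTop' (by norm_num)))
      have h2 := (h1.const_sub (α * Real.log 2)).rexp
      have e : Real.exp (α * Real.log 2 - (2 * (α * Real.log 2 - Real.log A) -
          (α * Real.log 2 - Real.log A))) = A := by
        have e1 : α * Real.log 2 - (2 * (α * Real.log 2 - Real.log A) -
          (α * Real.log 2 - Real.log A)) = Real.log A := by ring
        rw [e1, Real.exp_log hA]
      rw [e] at h2
      refine h2.congr' ?_
      filter_upwards [eventually_ge_atTop 1] with k hk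
      have hsk : (0 : ℝ) < ((s * k : ℕ) : ℝ) := by exact_mod_cast Nat.mul_pos hs1 hk
      rw [hrel k hk]
      have e1 : α * Real.log 2 - (α * Real.log 2 -
        Real.log (P Adj (s * k) * ((s * k : ℕ) : ℝ) ^ α)) =
        Real.log (P Adj (s * k) * ((s * k : ℕ) : ℝ) ^ α) := by ring
      rw [e1, Real.exp_log (mul_pos (hPpos _) (Real.rpow_pos_of_pos hsk _))]
    · have h2 := hxlim.rexp
      have e : Real.exp (α * Real.log 2 - Real.log A) = 2 ^ α / A := by
        rw [Real.exp_sub, Real.exp_log hA, Real.rpow_def_of_pos (by norm_num), mul_comm]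
      rw [e] at h2
      refine h2.congr' ?_
      filter_upwards [eventually_ge_atTop 1] with k hk
      have hsk : (0 : ℝ) < ((s * k : ℕ) : ℝ) := by exact_mod_cast Nat.mul_pos hs1 hk
      rw [hxk, Real.exp_sub, hell]
      simp only
      rw [Real.exp_log (div_pos (hapos _) (by positivity)), Real.rpow_def_of_pos hsk, div_div,
        mul_comm α]

end Pool.Agent.Results.MP_8c6f77_pr.PerfectSquares
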