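import Pool.Agent.Q219.SAW.Wdg
import Pool.Agent.Q219.SAW.Site

/-!
Stars with up to four arms on the square lattice: four (or three) independent self-avoiding walks
which start at the origin.  Lower bound for the probability that they have no other common sites,
and regularity of this probability and of the conditional law in the length of one of the arms,
uniformly in the lengths of the others.
-/

set_option autoImplicit false

namespace Pool.Agent.Results.MP_8c6f77_pr.Stars

open Q219.SAW.Std Finset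

/-- three paths with `m 0`, `m 1` and `m 2` steps -/
abbrev Arms (m : Fin 3 → ℕ) := ∀ i : Fin 3, Fin (m i + 1) → ℤ × ℤ

/-- the stars: four self-avoiding walks from the origin, the first one with `n` steps and the others
with `m 0`, `m 1`, `m 2` steps, such that no two of them have a common site except the origin -/
def stars (n : ℕ) (m : Fin 3 → ℕ) : Set ((Fin (n + 1) → ℤ × ℤ) × Arms m) :=
  {p | IsSAW sqSteps n p.1 ∧ (∀ i, IsSAW sqSteps (m i) (p.2 i)) ∧
    (∀ i j l, p.1 j = p.2 i l → p.1 j = 0) ∧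
    ∀ i i' l l', i ≠ i' → p.2 i l = p.2 i' l' → p.2 i l = 0}

/-- the probability that four independent uniform self-avoiding walks with `n`, `m 0`, `m 1` and
`m 2` steps form a star -/
noncomputable def P (n : ℕ) (m : Fin 3 → ℕ) : ℝ :=
  ((stars n m).ncard : ℝ) / (c sqSteps n * ∏ i, c sqSteps (m i))

/-- the total number of steps -/
def total (n : ℕ) (m : Fin 3 → ℕ) : ℕ := n + m 0 + m 1 + m 2

/-- the outer part of the first walk (its first `a + 1` and its last `b + 1` sites) and the other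
walks -/
def part (a b : ℕ) {n : ℕ} {m : Fin 3 → ℕ} (p : (Fin (n + 1) → ℤ × ℤ) × Arms m) :
    Pairs a b × Arms m := (outer a b p.1, p.2)

/-- the stars for which the event `H` occurs -/
def event (n : ℕ) (m : Fin 3 → ℕ) {a b : ℕ} (H : Set (Pairs a b × Arms m)) :
    Set ((Fin (n + 1) → ℤ × ℤ) × Arms m) :=
  {p | p ∈ stars n m ∧ part a b p ∈ H}

/-- the conditional probability of `H` given that the walks form a star -/
noncomputable def probH (n : ℕ) (m : Fin 3 → ℕ) {a b : ℕ} (H : Set (Pairs a b × Arms m)) : ℝ :=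
  ((event n m H).ncard : ℝ) / ((stars n m).ncard : ℝ)

/-- the conditional mean of `G` given that the walks form a star and given `H` -/
noncomputable def meanH (n : ℕ) (m : Fin 3 → ℕ) {a b : ℕ} (H : Set (Pairs a b × Arms m))
    (G : Pairs a b × Arms m → ℝ) : ℝ :=
  (∑ᶠ p ∈ event n m H, G (part a b p)) / ((event n m H).ncard : ℝ)

theorem hLat : IsLat sqSteps 2 := Or.inl ⟨rfl, rfl⟩

/-- the other walks -/
noncomputable def V (m : Fin 3 → ℕ) : Finset (Arms m) :=
  Fintype.piFinset fun i => (finite hLat (m i)).toFinset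

/-- the domain for the other walks -/
def D {m : Fin 3 → ℕ} (u : Arms m) : Set (ℤ × ℤ) :=
  {x | (∀ i i' l l', i ≠ i' → u i l = u i' l' → u i l = 0) ∧ ∀ i l, x = u i l → x = 0}

theorem V_card (m : Fin 3 → ℕ) : ((V m).card : ℝ) = ∏ i, c sqSteps (m i) := by
  unfold V
  rw [Fintype.card_piFinset]
  push_cast
  refine prod_congr rfl fun i _ => ?_
  unfold c
  rw [Set.ncard_eq_toFinset_card _ (finite hLat (m i))]

theorem prod_pos' (m : Fin 3 → ℕ) : 0 < ∏ i, c sqSteps (m i) :=
  prod_pos fun i _ => c_pos hLat (m i)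

theorem V_ne (m : Fin 3 → ℕ) : (V m).Nonempty := by
  rw [← card_pos]
  have h := prod_pos' m
  rw [← V_card] at h
  exact_mod_cast h

theorem event_eq (n : ℕ) (m : Fin 3 → ℕ) {a b : ℕ} (H : Set (Pairs a b × Arms m)) :
    event n m H = {p | p.2 ∈ V m ∧ p.1 ∈ walks sqSteps (D p.2) {o | (o, p.2) ∈ H} n} := by
  ext p
  constructor
  · rintro ⟨⟨h1, h2, h3, h4⟩, h5⟩
    refine ⟨?_, h1, fun j => ⟨h4, fun i l h => h3 i j l h⟩, h5⟩
    unfold V
    rw [Fintype.mem_piFinset]
    intro i
    rw [Set.Finite.mem_toFinset]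
    exact h2 i
  · rintro ⟨h1, h2, h3, h4⟩
    unfold V at h1
    rw [Fintype.mem_piFinset] at h1
    refine ⟨⟨h2, fun i => ?_, fun i j l h => (h3 j).2 i l h, (h3 0).1⟩, h4⟩
    have := h1 i
    rw [Set.Finite.mem_toFinset] at this
    exact this

theorem stars_eq (n : ℕ) (m : Fin 3 → ℕ) (a b : ℕ) :
    stars n m = event n m (Set.univ : Set (Pairs a b × Arms m)) := by
  ext p
  unfold event
  simp

theorem stars_fin (n : ℕ) (m : Fin 3 → ℕ) : (stars n m).Finite := by
  refine ((finite hLat n).prod (V m).finite_toSet).subset ?_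
  intro p hp
  rw [stars_eq n m 0 0, event_eq] at hp
  exact ⟨hp.2.1, hp.1⟩

theorem wfin (D : Set (ℤ × ℤ)) {a b : ℕ} (H : Set (Pairs a b)) (n : ℕ) :
    (walks sqSteps D H n).Finite := (finite hLat n).subset fun _ h => h.1

theorem ncard_event (n : ℕ) (m : Fin 3 → ℕ) {a b : ℕ} (H : Set (Pairs a b × Arms m)) :
    ((event n m H).ncard : ℝ) = fc sqSteps (V m) D (fun w => {o | (o, w) ∈ H}) n := by
  rw [event_eq]
  exact card_fam (V m) (fun w => walks sqSteps (D w) {o | (o, w) ∈ H} n) (fun _ => wfin _ _ _)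

theorem meanH_eq (n : ℕ) (m : Fin 3 → ℕ) {a b : ℕ} (H : Set (Pairs a b × Arms m))
    (G : Pairs a b × Arms m → ℝ) :
    meanH n m H G = fm sqSteps (V m) D (fun w => {o | (o, w) ∈ H}) n (fun w o => G (o, w)) := by
  unfold meanH fm
  rw [ncard_event, event_eq]
  congr 1
  exact sum_fam (V m) (fun w => walks sqSteps (D w) {o | (o, w) ∈ H} n)
    (fun _ => wfin _ _ _) (fun x w => G (outer a b x, w))

theorem P_eq (n : ℕ) (m : Fin 3 → ℕ) (a b : ℕ) : P n m * (c sqSteps n * ∏ i, c sqSteps (m i)) =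
    fc sqSteps (V m) D
      (fun w => {o | (o, w) ∈ (Set.univ : Set (Pairs a b × Arms m))}) n := by
  have h1 := c_pos hLat n
  have h2 := prod_pos' m
  rw [← ncard_event, ← stars_eq]
  unfold P
  field_simp

/-- the wedge of the first walk -/
def W0 : Set (ℤ × ℤ) := {x | 2 * |x.1| ≤ x.2}

/-- the wedges of the other walks -/
def Wd : Fin 3 → Set (ℤ × ℤ) :=
  ![{x | 2 * |x.1| ≤ -x.2}, {x | 2 * |x.2| ≤ x.1}, {x | 2 * |x.2| ≤ -x.1}]

theorem W0_Wd (i : Fin 3) (x : ℤ × ℤ) (h1 : x ∈ W0) (h2 : x ∈ Wd i) : x = 0 := by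
  have h3 : 2 * |x.1| ≤ x.2 := h1
  have ha1 := abs_nonneg x.1
  have ha2 := abs_nonneg x.2
  have hb1 := le_abs_self x.1
  have hb2 := le_abs_self x.2
  have hb3 := neg_abs_le x.1
  have hb4 := neg_abs_le x.2
  refine Prod.ext ?_ ?_ <;> fin_cases i
  · have h4 : 2 * |x.1| ≤ -x.2 := h2
    show x.1 = 0
    omega
  · have h4 : 2 * |x.2| ≤ x.1 := h2
    show x.1 = 0
    omega
  · have h4 : 2 * |x.2| ≤ -x.1 := h2
    show x.1 = 0
    omega
  · have h4 : 2 * |x.1| ≤ -x.2 := h2
    show x.2 = 0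
    omega
  · have h4 : 2 * |x.2| ≤ x.1 := h2
    show x.2 = 0
    omega
  · have h4 : 2 * |x.2| ≤ -x.1 := h2
    show x.2 = 0
    omega

theorem Wd_Wd (i j : Fin 3) (hij : i ≠ j) (x : ℤ × ℤ) (h1 : x ∈ Wd i) (h2 : x ∈ Wd j) :
    x = 0 := by
  have ha1 := abs_nonneg x.1
  have ha2 := abs_nonneg x.2
  have hb1 := le_abs_self x.1
  have hb2 := le_abs_self x.2
  have hb3 := neg_abs_le x.1
  have hb4 := neg_abs_le x.2
  have key : ∀ k : Fin 3, x ∈ Wd k → (k = 0 ∧ 2 * |x.1| ≤ -x.2) ∨ (k = 1 ∧ 2 * |x.2| ≤ x.1) ∨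
      (k = 2 ∧ 2 * |x.2| ≤ -x.1) := by
    intro k hk
    fin_cases k
    · exact Or.inl ⟨rfl, hk⟩
    · exact Or.inr (Or.inl ⟨rfl, hk⟩)
    · exact Or.inr (Or.inr ⟨rfl, hk⟩)
  refine Prod.ext ?_ ?_
  · show x.1 = 0
    rcases key i h1 with ⟨e1, h3⟩ | ⟨e1, h3⟩ | ⟨e1, h3⟩ <;>
    rcases key j h2 with ⟨e2, h4⟩ | ⟨e2, h4⟩ | ⟨e2, h4⟩ <;>
    first
      | exact absurd (e1.trans e2.symm) hij
      | omega
  · show x.2 = 0
    rcases key i h1 with ⟨e1, h3⟩ | ⟨e1, h3⟩ | ⟨e1, h3⟩ <;>
    rcases key j h2 with ⟨e2, h4⟩ | ⟨e2, h4⟩ | ⟨e2, h4⟩ <;>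
    first
      | exact absurd (e1.trans e2.symm) hij
      | omega

/-- product events -/
theorem P_ge (n : ℕ) (m : Fin 3 → ℕ) :
    prob sqSteps W0 (Set.univ : Set (Pairs 0 0)) n *
      ∏ i, prob sqSteps (Wd i) (Set.univ : Set (Pairs 0 0)) (m i) ≤ P n m := by
  have h1 := c_pos hLat n
  have h2 := prod_pos' m
  have hw : ∀ i, (walks sqSteps (Wd i) (Set.univ : Set (Pairs 0 0)) (m i)).Finite :=
    fun i => wfin _ _ _
  unfold prob P
  rw [prod_div_distrib, div_mul_div_comm]
  refine div_le_div_of_nonneg_right ?_ (by positivity)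
  have e : ∏ i, ((walks sqSteps (Wd i) (Set.univ : Set (Pairs 0 0)) (m i)).ncard : ℝ) =
      (({u : Arms m | ∀ i, u i ∈ walks sqSteps (Wd i) (Set.univ : Set (Pairs 0 0)) (m i)}.ncard :
        ℕ) : ℝ) := by
    have h3 : {u : Arms m | ∀ i, u i ∈ walks sqSteps (Wd i) (Set.univ : Set (Pairs 0 0)) (m i)} =
        ((Fintype.piFinset fun i => (hw i).toFinset : Finset (Arms m)) : Set (Arms m)) := by
      ext u
      simp
    rw [h3, Set.ncard_coe_finset, Fintype.card_piFinset]
    push_cast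
    refine prod_congr rfl fun i _ => ?_
    rw [Set.ncard_eq_toFinset_card _ (hw i)]
  rw [e, ← Nat.cast_mul, ← Set.ncard_prod]
  refine Nat.cast_le.2 (Set.ncard_le_ncard ?_ (stars_fin n m))
  rintro ⟨w, u⟩ ⟨hw, hu⟩
  have hu' : ∀ i, u i ∈ walks sqSteps (Wd i) (Set.univ : Set (Pairs 0 0)) (m i) := hu
  refine ⟨hw.1, fun i => (hu' i).1, fun i j l h => ?_, fun i i' l l' hii h => ?_⟩
  · refine W0_Wd i _ (hw.2.1 j) ?_
    have h' : w j = u i l := h
    show w j ∈ Wd i
    rw [h']
    exact (hu' i).2.1 l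
  · refine Wd_Wd i i' hii _ ((hu' i).2.1 l) ?_
    have h' : u i l = u i' l' := h
    show u i l ∈ Wd i'
    rw [h']
    exact (hu' i').2.1 l'

/-- lower bound -/
theorem low : ∃ K : ℝ, 0 ≤ K ∧ ∀ (n : ℕ) (m : Fin 3 → ℕ), 2 ≤ n →
    Real.exp (-(K * Real.log (total n m) ^ 3)) ≤ P n m := by
  obtain ⟨K, hK, h⟩ := wedge_any
  refine ⟨32 * K, by positivity, ?_⟩
  intro n m hn
  have hT : 2 ≤ total n m := by unfold total; omega
  have hT2 : (2 : ℝ) ≤ total n m := by exact_mod_cast hT
  have hlog : ∀ k : ℕ, k ≤ total n m → Real.log (k + 2) ^ 3 ≤ 8 * Real.log (total n m) ^ 3 := by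
    intro k hk
    have hk' : (k : ℝ) ≤ total n m := by exact_mod_cast hk
    have h1 : Real.log ((k : ℝ) + 2) ≤ 2 * Real.log (total n m) := by
      have h2 : (k : ℝ) + 2 ≤ (total n m : ℝ) ^ 2 := by nlinarith
      have h3 := Real.log_le_log (by positivity) h2
      rw [Real.log_pow] at h3
      exact_mod_cast h3
    have h0 : 0 ≤ Real.log ((k : ℝ) + 2) := Real.log_nonneg (by
      have : (0 : ℝ) ≤ k := Nat.cast_nonneg k
      linarith)
    have := pow_le_pow_left₀ h0 h1 3
    refine this.trans (le_of_eq ?_)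
    ring
  obtain ⟨E, hE⟩ : ∃ E : ℝ, E = Real.exp (-(K * (8 * Real.log (total n m) ^ 3))) := ⟨_, rfl⟩
  have hE0 : 0 < E := by rw [hE]; exact Real.exp_pos _
  have hm : ∀ k : ℕ, k ≤ total n m → E ≤ Real.exp (-(K * Real.log (k + 2) ^ 3)) := by
    intro k hk
    rw [hE]
    exact Real.exp_le_exp.2 (neg_le_neg (mul_le_mul_of_nonneg_left (hlog k hk) hK))
  have a0 : E ≤ prob sqSteps W0 (Set.univ : Set (Pairs 0 0)) n :=
    (hm n (by unfold total; omega)).trans (h n 0 0).1
  have a1 : ∀ i, E ≤ prob sqSteps (Wd i) (Set.univ : Set (Pairs 0 0)) (m i) := by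
    intro i
    fin_cases i
    · exact (hm (m 0) (by unfold total; omega)).trans (h (m 0) 0 0).2.1
    · exact (hm (m 1) (by unfold total; omega)).trans (h (m 1) 0 0).2.2.1
    · exact (hm (m 2) (by unfold total; omega)).trans (h (m 2) 0 0).2.2.2
  refine le_trans ?_ (P_ge n m)
  have h5 : E * E ^ 3 ≤ prob sqSteps W0 (Set.univ : Set (Pairs 0 0)) n *
      ∏ i, prob sqSteps (Wd i) (Set.univ : Set (Pairs 0 0)) (m i) := by
    refine mul_le_mul a0 ?_ (by positivity) (hE0.le.trans a0)
    rw [Fin.prod_univ_three]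
    have := mul_le_mul (mul_le_mul (a1 0) (a1 1) hE0.le (hE0.le.trans (a1 0))) (a1 2) hE0.le
      (mul_nonneg (hE0.le.trans (a1 0)) (hE0.le.trans (a1 1)))
    refine le_trans (le_of_eq ?_) this
    ring
  refine le_trans (le_of_eq ?_) h5
  have e4 : E * E ^ 3 = E ^ 4 := by ring
  rw [e4, hE, ← Real.exp_nat_mul]
  congr 1
  push_cast
  ring

/-- **Theorem** (square lattice). There are `K` and `δ > 0` such that for all `n ≥ 2` and all
`m 0, m 1, m 2 ≥ 0`, with the total number of steps `N = n + m 0 + m 1 + m 2`: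
(1) four independent uniform self-avoiding walks from the origin with `n`, `m 0`, `m 1` and `m 2`
steps form a star (pairwise no common sites except the origin) with probability
`P n m ≥ exp (-K log³ N)` (walks with `m i = 0` steps are trivial, so this includes three arms);
(2) `|P (n + 2) m / P n m - 1| ≤ K (log³ N / n)^(1/2)` if `log³ N ≤ δ n`;
(3) if `n = a + L + b` with `L ≥ 1`, then for every event `H` for the outer part of the first walk
(its first `a + 1` and its last `b + 1` sites) and the other walks, which has the conditional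
probability `q > 0` given that the walks form a star, the conditional means of all functions
`0 ≤ G ≤ 1` of the outer part of the first walk and the other walks, given that they form a star and
given `H`, for first walks with `n + 2` and with `n` steps differ by at most
`K ((log³ N + log (1/q)) / L)^(1/2)`. -/
theorem result : ∃ K δ : ℝ, 0 < δ ∧ ∀ (n : ℕ) (m : Fin 3 → ℕ), 2 ≤ n →
    Real.exp (-(K * Real.log (total n m) ^ 3)) ≤ P n m ∧
    (Real.log (total n m) ^ 3 ≤ δ * n →
      |P (n + 2) m / P n m - 1| ≤ K * √(Real.log (total n m) ^ 3 / n)) ∧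
    ∀ a L b : ℕ, n = a + L + b → 1 ≤ L → ∀ H : Set (Pairs a b × Arms m),
      0 < probH n m H → ∀ G : Pairs a b × Arms m → ℝ, (∀ o, 0 ≤ G o) → (∀ o, G o ≤ 1) →
      |meanH (n + 2) m H G - meanH n m H G| ≤
        K * √((Real.log (total n m) ^ 3 + Real.log (1 / probH n m H)) / L) := by
  obtain ⟨K₀, hK₀, hlow⟩ := low
  obtain ⟨R, δ, hR, hδ, hwin⟩ := fam_win hLat
  obtain ⟨R', hR', htv⟩ := fam_tv hLat
  obtain ⟨B, hB⟩ : ∃ B : ℝ, B = 2 + K₀ := ⟨_, rfl⟩
  have hB2 : 2 ≤ B := by linarith
  have hB1 : 1 ≤ B := by linarith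
  have hδ'0 : 0 < min δ (1 / (4 * R ^ 2)) / B := by
    have := lt_min hδ (show 0 < 1 / (4 * R ^ 2) by positivity)
    positivity
  refine ⟨max K₀ (max (4 * R * √B) (R' * √B)), min δ (1 / (4 * R ^ 2)) / B, hδ'0, ?_⟩
  intro n m hn
  have hl := hlow n m hn
  obtain ⟨x, hx⟩ : ∃ x : ℝ, x = Real.log (total n m) ^ 3 := ⟨_, rfl⟩
  rw [← hx] at hl ⊢
  have hT : (2 : ℝ) ≤ total n m := by
    exact_mod_cast (show 2 ≤ total n m by unfold total; omega)
  have hlT : 1 / 2 ≤ Real.log (total n m) := by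
    have h1 := Real.log_le_log (by norm_num) hT
    have h2 := Real.log_two_gt_d9
    linarith
  have hx0 : 0 ≤ x := by
    rw [hx]
    exact pow_nonneg (by linarith) 3
  have hlogx : Real.log n ^ 2 ≤ 2 * x := by
    have h1 : Real.log n ≤ Real.log (total n m) := by
      refine Real.log_le_log (by exact_mod_cast (show 0 < n by omega)) ?_
      exact_mod_cast (show n ≤ total n m by unfold total; omega)
    have h2 : 0 ≤ Real.log n := Real.log_nonneg (by exact_mod_cast (show 1 ≤ n by omega))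
    refine (pow_le_pow_left₀ h2 h1 2).trans ?_
    rw [hx]
    have h3 : 0 ≤ Real.log (total n m) ^ 2 := sq_nonneg _
    nlinarith
  have hP0 : 0 < P n m := (Real.exp_pos _).trans_le hl
  have hcn := c_pos hLat n
  have hcm := prod_pos' m
  refine ⟨le_trans (Real.exp_le_exp.2 (neg_le_neg ?_)) hl, ?_, ?_⟩
  · exact mul_le_mul_of_nonneg_right (le_max_left _ _) hx0
  · intro hxn
    have hn0 : (0 : ℝ) < n := by exact_mod_cast (show 0 < n by omega)
    have hBx : B * x ≤ min δ (1 / (4 * R ^ 2)) * n := by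
      have := mul_le_mul_of_nonneg_left hxn (show 0 ≤ B by linarith)
      refine this.trans (le_of_eq ?_)
      field_simp
    have e0 : 0 + n + 0 = n := by omega
    have hlogn : Real.log ((0 + n + 0 : ℕ) : ℝ) ^ 2 ≤ B * x := by
      rw [e0]
      nlinarith
    have hsmall : B * x ≤ δ * n :=
      hBx.trans (mul_le_mul_of_nonneg_right (min_le_left _ _) hn0.le)
    have hexp : Real.exp (-(B * x)) ≤ P n m := by
      refine le_trans (Real.exp_le_exp.2 (neg_le_neg ?_)) hl
      rw [hB]
      linarith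
    obtain ⟨g1, g2, -⟩ := hwin (V m) D 0 n 0 (fun w => {o | (o, w) ∈
      (Set.univ : Set (Pairs 0 0 × Arms m))}) (B * x) (V_ne m) (by omega)
      (by omega) hlogn hsmall (by
        rw [e0, ← P_eq, V_card, mul_comm (c sqSteps n)]
        exact mul_le_mul_of_nonneg_right hexp (by positivity))
    obtain ⟨f1, f2, -⟩ := hwin ({()} : Finset Unit) (fun _ => Set.univ) 0 n 0
      (fun _ => (Set.univ : Set (Pairs 0 0))) (B * x) (by simp) (by omega)
      (by omega) hlogn hsmall (by
        have e : fc sqSteps ({()} : Finset Unit) (fun _ => Set.univ) 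
            (fun _ => (Set.univ : Set (Pairs 0 0))) (0 + n + 0) = c sqSteps (0 + n + 0) := by
          unfold fc walks c
          simp
        rw [e, card_singleton, Nat.cast_one, one_mul]
        refine mul_le_of_le_one_left (c_pos hLat _).le ?_
        rw [Real.exp_le_one_iff]
        have : 0 ≤ B * x := by positivity
        linarith)
    have e : ∀ k, fc sqSteps ({()} : Finset Unit) (fun _ => Set.univ)
        (fun _ => (Set.univ : Set (Pairs 0 0))) k = c sqSteps k := by
      intro k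
      unfold fc walks c
      simp
    rw [e, e, e0] at f2
    rw [← P_eq, ← P_eq, e0] at g2
    have hμ : 0 < mu sqSteps := by
      have := (c_bounds hLat).1
      linarith
    have hhalf : R * √(B * x / n) ≤ 1 / 2 := by
      have h1 : B * x / n ≤ (1 / (2 * R)) ^ 2 := by
        rw [div_le_iff₀ hn0]
        refine hBx.trans (mul_le_mul_of_nonneg_right ?_ hn0.le)
        refine (min_le_right _ _).trans (le_of_eq ?_)
        field_simp
        norm_num
      have h2 : √(B * x / n) ≤ 1 / (2 * R) := by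
        rw [Real.sqrt_le_left (by positivity)]
        exact h1
      calc R * √(B * x / n) ≤ R * (1 / (2 * R)) := mul_le_mul_of_nonneg_left h2 hR.le
        _ = 1 / 2 := by field_simp
    have h4 := TH966.AK.ratio_aux (mul_pos hP0 (mul_pos hcn hcm)) hcn (pow_pos hμ 2) g2 f2 hhalf
    have e2 : P (n + 2) m * (c sqSteps (n + 2) * ∏ i, c sqSteps (m i)) / c sqSteps (n + 2) /
        (P n m * (c sqSteps n * ∏ i, c sqSteps (m i)) / c sqSteps n) = P (n + 2) m / P n m := by
      have := c_pos hLat (n + 2)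
      field_simp
    rw [e2] at h4
    refine h4.trans ?_
    rw [mul_div_assoc, Real.sqrt_mul (by linarith), ← mul_assoc, ← mul_assoc]
    refine mul_le_mul_of_nonneg_right ?_ (Real.sqrt_nonneg _)
    exact (le_max_left _ _).trans (le_max_right _ _)
  · intro a L b hnab hL H hq G hG0 hG1
    subst hnab
    obtain ⟨q, hqd⟩ : ∃ q, q = probH (a + L + b) m H := ⟨_, rfl⟩
    rw [← hqd] at hq ⊢
    have hpc : 0 < ((stars (a + L + b) m).ncard : ℝ) := by
      have h1 : 0 < ((stars (a + L + b) m).ncard : ℝ) /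
          (c sqSteps (a + L + b) * ∏ i, c sqSteps (m i)) := hP0
      by_contra hc
      have h2 : ((stars (a + L + b) m).ncard : ℝ) /
          (c sqSteps (a + L + b) * ∏ i, c sqSteps (m i)) ≤ 0 :=
        div_nonpos_of_nonpos_of_nonneg (not_lt.1 hc) (by positivity)
      linarith
    have hq1 : q ≤ 1 := by
      rw [hqd]
      unfold probH
      refine div_le_one_of_le₀ ?_ hpc.le
      exact Nat.cast_le.2 (Set.ncard_le_ncard (fun p hp => hp.1) (stars_fin _ m))
    have hlq : 0 ≤ Real.log (1 / q) := Real.log_nonneg (by rw [le_div_iff₀ hq]; linarith)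
    obtain ⟨Λ, hΛ⟩ : ∃ Λ : ℝ, Λ = B * x + Real.log (1 / q) := ⟨_, rfl⟩
    have hexp : Real.exp (-Λ) ≤ q * P (a + L + b) m := by
      rw [hΛ, neg_add, Real.exp_add, one_div, Real.log_inv, neg_neg, Real.exp_log hq, mul_comm]
      refine mul_le_mul_of_nonneg_left ?_ hq.le
      refine le_trans (Real.exp_le_exp.2 (neg_le_neg ?_)) hl
      rw [hB]
      linarith
    have h1 := htv (V m) D a L b (fun w => {o | (o, w) ∈ H}) Λ (V_ne m) (by omega) hL (by
        rw [hΛ]
        nlinarith) (by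
        rw [← ncard_event]
        have h3 : ((event (a + L + b) m H).ncard : ℝ) =
            q * P (a + L + b) m * (c sqSteps (a + L + b) * ∏ i, c sqSteps (m i)) := by
          rw [hqd]
          unfold probH P
          field_simp
        rw [h3, V_card, mul_comm (∏ i, c sqSteps (m i))]
        exact mul_le_mul_of_nonneg_right hexp (by positivity)) (fun w o => G (o, w))
      (fun _ _ => hG0 _) (fun _ _ => hG1 _)
    rw [meanH_eq, meanH_eq]
    refine h1.trans ?_
    have hL0 : (0 : ℝ) < L := by exact_mod_cast hL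
    have h5 : √(Λ / L) ≤ √B * √((x + Real.log (1 / q)) / L) := by
      rw [← Real.sqrt_mul (by linarith)]
      refine Real.sqrt_le_sqrt ?_
      rw [← mul_div_assoc]
      refine div_le_div_of_nonneg_right ?_ hL0.le
      rw [hΛ, mul_add]
      have : Real.log (1 / q) ≤ B * Real.log (1 / q) := le_mul_of_one_le_left hlq hB1
      linarith
    refine (mul_le_mul_of_nonneg_left h5 hR'.le).trans ?_
    rw [← mul_assoc]
    refine mul_le_mul_of_nonneg_right ?_ (Real.sqrt_nonneg _)
    exact (le_max_right _ _).trans (le_max_right _ _)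

end Pool.Agent.Results.MP_8c6f77_pr.Stars
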